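import Pool.Agent.Q44.JQ.M.Facts
import Pool.Agent.Q274.JB.Def

/-!
# The `2`-adic regulators of hyperelliptic curves for `i = 2`, `j = 1`: the joint law for all quadratic twists

The conjecture (Q1) for `l = 2`, `k = ℚ`, `i = 2`, `j = 1` and a curve `X` with the Jacobian `J` says that the map
`J(ℚ) ⊗ ℚ_2 = CH¹(X)_hom ⊗ ℚ_2 → H¹_st(ℚ, V_2 J)`, `V_2 J = H¹(X, ℚ_2(1))`, is bijective. Here
`H¹_st(ℚ, V_2 J) = H¹_f(ℚ, V_2 J)` (the local groups `H¹(ℚ_l, V_2 J)`, `l ≠ 2`, are zero, and at `2` the group of the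
semistable classes is the image of the Kummer map).

Let `J 1, …, J n` be Jacobians of hyperelliptic curves `y ^ 2 = ∏ (x - a k i)`, `i = 0, …, 2 g_k`, of any
genera `g_k ≥ 1` over `ℚ` with rational Weierstrass points (for `g_k = 1`: elliptic curves with rational
2-torsion). For an integer `D ≠ 0` let `J k D` be the quadratic twist by `D`, the Jacobian of
`D y ^ 2 = ∏ (x - a k i)` or of `y ^ 2 = ∏ (x - D a k i)`. We assume for every `k`

* that no product of some of the differences `a k i - a k j`, `i < j`, is of the form `± s ^ 2` or that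
  `g_k = 1` and no product `(a k i - a k j) (a k i - a k l)` of two differences is a square (the elliptic
  curve has no rational cyclic subgroup of order 4);
* that there is an odd prime `p k` which divides the product of the differences of the family `k`, and
  whose square does not divide the product of all the differences of all the families.

Let `m_1, …, m_t` be different positive squarefree integers which are squares in `ℚ_l` for `l = 2` and for
all primes `l` which divide some difference. The theorem is about all the twists `J k (D m_i)` together,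
for *all* squarefree integers `D`, of any sign and with any number of prime factors. (If the `m_i` are the
squarefree parts of the products of some of the integers `d_1, …, d_s`, the twists `J k (D m_i)` are the
factors of `J k D` over the field `F = ℚ(√d_1, …, √d_s)`, and `H¹_f(F, V_2 J k D)` is the sum of the groups
`H¹_f(ℚ, V_2 J k (D m_i))`.)

Let `S` be a finite set of primes different from the `p k`. A class is the set of the squarefree integers
`D`, prime to the `p k`, which have a given sign and a given class in `ℚ_l ^ * / ℚ_l ^ (* 2)` for `l` in `S`;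
it has positive density.

`H¹_f(ℚ, V_2 J)` is the Bloch–Kato Selmer group of `V_2 J = T_2 J ⊗ ℚ_2`: the classes of the continuous
cocycles of the absolute Galois group of `ℚ` with values in `V_2 J` whose restrictions to `ℚ_l`, for all
primes `l`, and to `ℝ` are in the images of the local Kummer maps (this is the condition of Bloch and
Kato). The classes of the cocycles with values in `T_2 J` form a lattice `L` in `H¹_f(ℚ, V_2 J)`, so that
`#(L / 2 L) = 2 ^ dim H¹_f(ℚ, V_2 J)`.

Let `β = ∏_{i ≥ 0} (1 - 2 ^ (- 2 i - 1)) = 0.4194...` and let `p` be the probability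
distribution on the set of the natural numbers with

`p(e) = (β / 2) 2 ^ e / ((2 - 1) (2 ^ 2 - 1) ⋯ (2 ^ e - 1))`

(`p(0) = 0.2097...`, `p(1) = 0.4194...`, `p(2) = 0.2796...`, `p(3) = 0.0798...`), the law of Heath-Brown
and of Poonen and Rains. Let `P` be the law of the following random vector `e k i`: the vectors `(e k i)_i`
for different `k` are independent; for every `k` a fair coin determines the parity of all the `e k i`, and
given the parity the `e k i`, `i = 1, …, t`, are independent, with the law `p` conditioned by the parity.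
For every set `𝒜` of vectors and every `ε > 0`, for at least the proportion `P(𝒜) - ε` of the `D` of the
class up to `X`, `X` large, there is a vector `e` in `𝒜` such that for all `k` and `i`

`#(L / 2 L) ≤ 2 ^ e k i`, that is `dim H¹_f(ℚ, V_2 J) ≤ e k i`, `J = J k (D m_i)`,

and, if `e k i = 0`, `H¹_f(ℚ, V_2 J) = 0` and `#(J(ℚ) / 2 ^ r J(ℚ)) = 2 ^ (2 g_k)` for all `r ≥ 1`. In particular
all the `n t` groups `H¹_f(ℚ, V_2 J k (D m_i))` vanish for at least the proportion `(β ^ t / 2) ^ n - ε` of all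
`D` (`0.2097 ^ n` for `t = 1`); then the Abel–Jacobi (Kummer) maps from `J(ℚ) ⊗ ℚ_2` to `H¹_f(ℚ, V_2 J)` are
isomorphisms of zero spaces (by the theorem of Mordell and Weil, which is not used here).

The joint law of the 2-Selmer groups is project JQ (`Pool.Agent.Q44.JQ`, the theorem
`MP_a43263_nt.JointLawOfJacobians`). New here is the passage to the group `H¹_f` of continuous cocycles
with values in `V_2 J`: `L / 2 L` is mapped to `Ш[2]` by the first coordinate of a cocycle; the kernel is mapped
to the quotient of `J(ℚ)` by `2 J(ℚ) + J(ℚ)[2]`, and the kernel of this map is zero, because the coboundaries of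
sequences of torsion points satisfy the local conditions.
-/

set_option autoImplicit false
set_option linter.all false

namespace Pool.Agent.Results.MP_76188c_nt.JointLawOfJacobians

open Filter Topology Pool.Agent.Y723.SJ
open Q274.BJ (H1f LModTwo)
open scoped Classical

/-- The pairs `i < j` of indices. -/
abbrev Pairs (n : ℕ) : Type := {c : Fin n × Fin n // c.1 < c.2}

/-- The difference `a i - a j` of a pair `i < j`. -/
def difference {n : ℕ} (a : Fin n → ℤ) (x : Pairs n) : ℤ := a x.1.1 - a x.1.2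

/-- No product of some of the differences is of the form `± s ^ 2`. -/
def Independent {n : ℕ} (a : Fin n → ℤ) : Prop :=
  ∀ W : Finset (Pairs n), W.Nonempty → ∀ s : ℤ,
    ∏ x ∈ W, difference a x ≠ s ^ 2 ∧ ∏ x ∈ W, difference a x ≠ -s ^ 2

/-- No product of two differences with a common root is a square. If there are three roots this means
that the elliptic curve `y ^ 2 = ∏ (x - a i)` has no rational cyclic subgroup of order 4. -/
def NoCyclicFour {n : ℕ} (a : Fin n → ℤ) : Prop :=
  ∀ i j l, i ≠ j → i ≠ l → j ≠ l → ∀ s : ℤ, (a i - a j) * (a i - a l) ≠ s ^ 2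

/-- The roots `D a i` of the quadratic twist by `D`. -/
def twist {n : ℕ} (D : ℤ) (a : Fin n → ℤ) : Fin n → ℤ := fun i => D * a i

/-- The squarefree integers `D` with `|D| ≤ X`, prime to the `p k`, with the sign of `D₀` and with the class
of `D₀` modulo squares in `ℚ_l` for the primes `l` in `S`. -/
def Class {κ : Type} (p : κ → ℕ) (S : Finset ℕ) (D₀ : ℤ) (X : ℕ) : Set ℤ :=
  {D | |D| ≤ X ∧ Squarefree D ∧ (∀ k, ¬ (p k : ℤ) ∣ D) ∧ 0 < D * D₀ ∧
    ∀ (l : ℕ) [Fact l.Prime], l ∈ S → IsSquare ((D * D₀ : ℤ) : ℚ_[l])}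

/-- The dimension of `H¹_f(ℚ, V_2 J)` is at most `e`; `J` is the Jacobian of `y ^ 2 = ∏ (x - a i)`: the order of
`L / 2 L` is at most `2 ^ e`, `L` the lattice of the classes of the cocycles with values in `T_2 J`.
If `e = 0`, `H¹_f(ℚ, V_2 J) = 0` and `J(ℚ) / 2 ^ r J(ℚ)` has the order `2 ^ (2 g)` for all `r ≥ 1`. -/
def RankAtMost {g : ℕ} (a : Fin (2 * g + 1) → ℤ) (e : ℕ) : Prop :=
  (Finite (LModTwo a) ∧ Nat.card (LModTwo a) ≤ 2 ^ e) ∧
    (e = 0 → (∀ x : H1f a 2, x = 0) ∧ ∀ r : ℕ, 1 ≤ r → Nat.card (QuotQ a (2 ^ r)) = 2 ^ (2 * g))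

/-- All the twists `J k (D m_i)` are bounded by `e k i`; `D'` is the squarefree part of `D m_i`. -/
def AllAtMost {κ μ : Type} {g : κ → ℕ} (a : ∀ k, Fin (2 * g k + 1) → ℤ) (m : μ → ℕ) (D : ℤ)
    (e : κ → μ → ℕ) : Prop :=
  ∀ k i, ∀ D' t : ℤ, Squarefree D' → D * m i = D' * t ^ 2 → RankAtMost (twist D' (a k)) (e k i)

/-- The infinite product of the numbers `1 - 2 ^ (- 2 i - 1)`, `i ≥ 0`. -/
noncomputable def beta : ℝ := ∏' i : ℕ, (1 - (1 / 2 : ℝ) ^ (2 * i + 1))

/-- The probability of `e` in the law `p`. -/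
noncomputable def law (e : ℕ) : ℝ :=
  beta / 2 * (2 ^ e / ∏ i ∈ Finset.range e, ((2 : ℝ) ^ (i + 1) - 1))

/-- The probability of `e` in the law `p` conditioned by the parity `c`. -/
noncomputable def parityLaw (c : ZMod 2) (e : ℕ) : ℝ := if (e : ZMod 2) = c then 2 * law e else 0

/-- The probability of the vector `e`: the vectors `e k` are independent; all components of `e k` have the
same parity, which is 0 or 1 with probability 1/2, and given the parity they are independent. -/
noncomputable def jointLaw {κ μ : Type} [Fintype κ] [Fintype μ] (e : κ → μ → ℕ) : ℝ :=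
  ∏ k, ((∏ i, parityLaw 0 (e k i)) + ∏ i, parityLaw 1 (e k i)) / 2

/-- The probability of the set `𝒜`. -/
noncomputable def probability {κ μ : Type} [Fintype κ] [Fintype μ] (𝒜 : Set (κ → μ → ℕ)) : ℝ :=
  ∑' e : κ → μ → ℕ, if e ∈ 𝒜 then jointLaw e else 0

theorem law_eq : law = Pool.Agent.Q269.SL.law2 := by
  funext e
  rw [Pool.Agent.Q269.SL.law2_eq]
  rfl

theorem joint_eq {κ μ : Type} [Fintype κ] [Fintype μ] (e : κ → μ → ℕ) :
    jointLaw e = Q44.JQ.M.lawV e := by
  unfold jointLaw Q44.JQ.M.lawV parityLaw Q44.JQ.lawc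
  rw [law_eq]

theorem result (κ μ : Type) [Fintype κ] [Fintype μ] (g : κ → ℕ) (hg : ∀ k, 1 ≤ g k)
    (a : ∀ k, Fin (2 * g k + 1) → ℤ) (ha : ∀ k, Function.Injective (a k))
    (hi : ∀ k, Independent (a k) ∨ (g k = 1 ∧ NoCyclicFour (a k)))
    (p : κ → ℕ) (hp : ∀ k, (p k).Prime ∧ p k ≠ 2)
    (h1 : ∀ k, (p k : ℤ) ∣ ∏ x, difference (a k) x)
    (h2 : ∀ k, ¬ (p k : ℤ) ^ 2 ∣ ∏ l, ∏ x, difference (a l) x)
    (m : μ → ℕ) (hm : Function.Injective m) (hsqf : ∀ i, Squarefree (m i))
    (hloc : ∀ i, ∀ (l : ℕ) [Fact l.Prime], (l = 2 ∨ ∃ k x, (l : ℤ) ∣ difference (a k) x) →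
      IsSquare ((m i : ℕ) : ℚ_[l]))
    (S : Finset ℕ) (hS : ∀ k, p k ∉ S)
    (D₀ : ℤ) (hD₀ : Squarefree D₀) (hpD : ∀ k, ¬ (p k : ℤ) ∣ D₀) :
    HasSum law 1 ∧ HasSum (fun e : κ → μ → ℕ => jointLaw e) 1 ∧
    (∃ c : ℝ, 0 < c ∧ Tendsto (fun X : ℕ => ((Class p S D₀ X).ncard : ℝ) / X) atTop (𝓝 c)) ∧
    ∀ 𝒜 : Set (κ → μ → ℕ), ∀ ε : ℝ, 0 < ε → ∀ᶠ X : ℕ in atTop,
      (probability 𝒜 - ε) * ((Class p S D₀ X).ncard : ℝ) ≤
        (({D ∈ Class p S D₀ X | ∃ e ∈ 𝒜, AllAtMost a m D e}).ncard : ℝ) := by
  let E := Q44.JQ.W.Ex.mk g hg a ha p hp h1 h2 hi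
  have hM : Q44.JQ.M.Mult E m := by
    refine ⟨hm, hsqf, fun i l hl h => hloc i l ?_⟩
    rcases h with h | h
    · exact Or.inl h
    · right
      have hP := Nat.prime_iff_prime_int.1 hl.out
      obtain ⟨k, -, hk⟩ := hP.exists_mem_finset_dvd h
      obtain ⟨x, -, hx⟩ := hP.exists_mem_finset_dvd hk
      exact ⟨k, x, hx⟩
  have h := Q274.JB.outR E S Q44.JQ.M.factsM hM hS D₀ hD₀ hpD _ fun _ => Iff.rfl
  unfold probability
  simp only [joint_eq]
  rw [law_eq]
  exact ⟨Pool.Agent.Q269.SL.hasSum_law, Q44.JQ.M.hasSum_lawV, h.1, h.2⟩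

end Pool.Agent.Results.MP_76188c_nt.JointLawOfJacobians
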