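import Pool.Agent.Q274.BKC.Tw
import Pool.Agent.Q274.BD.Fin

/-!
# The `2`-adic regulators of the powers of the twists of `X_0(49)`, in all degrees and all weights `j ≤ 0`

The conjecture (Q1) says that the regulators
`r_l : H^i_M(X, ℚ(j))_hom ⊗ ℚ_l → H¹(G_k, H^(i-1)(X, ℚ_l(j)))` are injective with image `H¹_st`. This file
proves that for `l = 2` and for a positive proportion of the twists of the elliptic curve `X_0(49)` both
sides are zero for ALL products `X` of these curves, ALL `i` and ALL `j ≤ 0`.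

Let `q ≡ 7 mod 8` be a prime, `K = ℚ(√-q)`, `s ∈ K` with `s² = -q`. The prime `2` splits in `K`: `v` is the
prime above `2` at which `s` is `3` modulo `4` and `v'` is the prime at which `s` is `1` modulo `4`; `t` is the
image of `s` in `K_v = ℚ_2`. Let `E` be the elliptic curve `X_0(49)` if `q = 7` (for the other `q` the abelian
variety of Gross) with complex multiplication by the integers of `K`, with Hecke character `ψ` of conductor
`√-q`, `ψ((β)) = (A / q) β` for `β = A + B s`, and let `E_d` be the twist by the quadratic character of `d`.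

For integers `a`, `b` we consider the characters `χ : G_K → ℤ_2^*` of the Hecke characters `ψ^a ψ'^b`, twisted by
the quadratic character of `ε D`, `ε = ±1`, if `a + b` is odd (`OddType`), and of `ε` if `a + b` is even
(`EvenType`): a Frobenius element at a prime `w` with `w^n = (A + B s)`, `n` odd, satisfies
`χ(Frob)^n = (A / q)^(a+b) (d / N(w)^n) (A + B t)^a (A - B t)^b` with `d = ε D` or `d = ε`. The Hodge–Tate
weights are `a` at `v` and `b` at `v'`. `H1 a b s χ` is the group of the classes of the continuous cocycles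
with values in `ℚ_2(χ)` which are coboundaries on the inertia groups of all primes not above `2`, on the
decomposition groups of the primes above `v` if `a ≤ 0`, and of the primes above `v'` if `b ≤ 0`. If
`a, b ≤ 0` and `a + b < 0` this is the group `H¹_st(G_K, ℚ_2(χ))` (the local groups at `v` and `v'` are zero; the
classes are unramified outside `2` since the weight `-(a + b)` is positive), and in general, if
`(a, b) ≠ (0, 0)`, it is the group `H¹_f` of Bloch and Kato.

Let `D` be in the following class: all prime factors are `1` modulo `4` and different from `q`, and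
`2 D ≡ q - 5` modulo `16` (for `q = 7`: `D ≡ 1` modulo `8`). Let `R(D)` be the following symmetric matrix over
`𝔽₂`, with rows and columns indexed by the prime factors `p` of `D` which split in `K`: the entry at `(p, p')`
is `0` if `p'` is a square modulo `p` and `1` otherwise; the diagonal entry at `p` is the sum of the symbols
of all the other prime factors of `D` modulo `p` and of the symbol which is `0` if `-q` is a fourth power
modulo `p` and `1` otherwise.

**Theorem.** (1) Let `a + b` be odd and let `b ≤ 0`, `ε = (-1)^b` or `a ≤ 0`, `ε = (-1)^a`; for `a, b ≤ 0` both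
signs `ε` are allowed. Then `dim H1 a b s χ ≤ 2 corank R(D)` for all `D` of the class and all characters `χ` of
this type.
(2) Let `q = 7`, `a + b` even, `a ≤ 0` or `b ≤ 0`, `ε = ±1`. Then `H1 a b s χ = 0`.
(3) Let `m_1, …, m_M` be different positive squarefree integers of the class whose prime factors are `1`
modulo `8` or inert in `K` and `5` modulo `8`. For the squarefree `D` with all prime factors `≠ q` and `1`
modulo `8` the twists `m_j D` (modulo squares) are in the class, and the coranks of `R(m_1 D), …, R(m_M D)`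
are asymptotically independent with the law `α(b) = κ / ((2 - 1) (4 - 1) ⋯ (2^b - 1))`,
`κ = (1 - 1/2) (1 - 1/8) (1 - 1/32) ⋯ = 0.4194…`.

**Consequence for Q1** (the dictionary is not formalized). Let `q = 7`, `R(D)` nonsingular (by (3) this is true
for exactly the proportion `κ` of the `D` with all prime factors `1` modulo `8`, and for all
`m_1 D, …, m_M D` at once for the proportion `κ^M`), `X` a product of any number of factors `E_D` and `E_(-D)`,
`k = ℚ` or `k = K`. Over `K` the representation `H^(i-1)(X, ℚ_2(j))` is a sum of characters of the type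
`(a, b) = (j - r, j - r')`, `r + r' = i - 1`, `r, r' ≥ 0`, with `ε = ±1`. If `j ≤ 0` then `a, b ≤ 0`. So
`H¹_st(G_k, H^(i-1)(X, ℚ_2(j))) = 0` for ALL `i` and ALL `j ≤ 0` (for `i = 1`, `j = 0` it is the group of the
everywhere unramified homomorphisms to `ℚ_2`), and the motivic groups are in the groups `K_(2j-i)(X) = 0`.
So Q1 is true for all these `X`, `l = 2`, all `i` and all `j ≤ 0`. For the powers of `E_D` it is also true for
`i = 2`, `j = 1` (both sides zero), and for the other `a`, `b` in (1) and (2) the theorem says that the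
regulators (of degree `i < 2 j`) and Abel–Jacobi maps (`i = 2 j`) of the critical motives of these Hecke
characters are onto `H¹_f = 0`.
-/

set_option autoImplicit false
set_option linter.all false

namespace Pool.Agent.Results.MP_76188c_nt.PowersOfTwists

open NumberField IsDedekindDomain Filter
open scoped Classical Topology

/-- The absolute Galois group of `K`, with the Krull topology. -/
abbrev G (K : Type) [Field K] : Type := Gal(AlgebraicClosure K/K)

/-- The ring of all the algebraic integers in the algebraic closure of `K`. -/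
abbrev Zbar (K : Type) [Field K] : Type := 𝓞 (AlgebraicClosure K)

section
variable {K : Type} [Field K]

/-- The decomposition group of the maximal ideal `Q`. -/
def decomposition (Q : Ideal (Zbar K)) : Set (G K) := {σ | ∀ x : Zbar K, σ • x ∈ Q ↔ x ∈ Q}

/-- The inertia group of the maximal ideal `Q`. -/
def inertia (Q : Ideal (Zbar K)) : Set (G K) := {σ | ∀ x : Zbar K, σ • x - x ∈ Q}

/-- The value of the character `χ` in `ℚ_2`. -/
noncomputable def value (χ : G K →* ℤ_[2]ˣ) (σ : G K) : ℚ_[2] := ((χ σ : ℤ_[2]) : ℚ_[2])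

/-- The restriction of `c` to `H` is a coboundary with values in `ℚ_2(χ)`. -/
def CoboundaryOn (χ : G K →* ℤ_[2]ˣ) (c : G K → ℚ_[2]) (H : Set (G K)) : Prop :=
  ∃ y : ℚ_[2], ∀ σ ∈ H, c σ = (value χ σ - 1) * y

/-- `Q` is above the prime `v'` of `K` above `2` at which `s` is `1` modulo `4`: `Q` contains `2` and
`(1 - s) / 2`. -/
def AboveConj (s : K) (Q : Ideal (Zbar K)) : Prop := (2 : Zbar K) ∈ Q ∧
  ∃ z : Zbar K, z ∈ Q ∧ 2 * (z : AlgebraicClosure K) = 1 - algebraMap K (AlgebraicClosure K) s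

/-- The continuous cocycles with values in `ℚ_2(χ)` which are coboundaries on the inertia groups outside
`2`, on the decomposition groups above `v` if `a ≤ 0` and on the decomposition groups above `v'` if
`b ≤ 0`. -/
def IsSelmer (a b : ℤ) (s : K) (χ : G K →* ℤ_[2]ˣ) (c : G K → ℚ_[2]) : Prop :=
  Continuous c ∧ (∀ σ τ, c (σ * τ) = c σ + value χ σ * c τ) ∧
  (∀ Q : Ideal (Zbar K), Q.IsMaximal → (2 : Zbar K) ∉ Q → CoboundaryOn χ c (inertia Q)) ∧
  (a ≤ 0 → ∀ Q : Ideal (Zbar K), Q.IsMaximal → AboveConj (-s) Q →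
    CoboundaryOn χ c (decomposition Q)) ∧
  (b ≤ 0 → ∀ Q : Ideal (Zbar K), Q.IsMaximal → AboveConj s Q → CoboundaryOn χ c (decomposition Q))

/-- The space of these cocycles. -/
def selmer (a b : ℤ) (s : K) (χ : G K →* ℤ_[2]ˣ) : Submodule ℚ_[2] (G K → ℚ_[2]) where
  carrier := {c | IsSelmer a b s χ c}
  add_mem' := by
    rintro x y ⟨ha1, ha2, ha3, ha4, ha5⟩ ⟨hb1, hb2, hb3, hb4, hb5⟩
    have key : ∀ H : Set (G K), CoboundaryOn χ x H → CoboundaryOn χ y H →
        CoboundaryOn χ (x + y) H := by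
      rintro H ⟨u, hu⟩ ⟨w, hw⟩
      exact ⟨u + w, fun σ hσ => by rw [Pi.add_apply, hu σ hσ, hw σ hσ]; ring⟩
    exact ⟨ha1.add hb1, fun σ τ => by simp only [Pi.add_apply, ha2, hb2]; ring,
      fun Q h1 h2 => key _ (ha3 Q h1 h2) (hb3 Q h1 h2),
      fun h Q h1 h2 => key _ (ha4 h Q h1 h2) (hb4 h Q h1 h2),
      fun h Q h1 h2 => key _ (ha5 h Q h1 h2) (hb5 h Q h1 h2)⟩
  zero_mem' := by
    have key : ∀ H : Set (G K), CoboundaryOn χ 0 H := fun H => ⟨0, fun σ _ => by simp⟩
    exact ⟨continuous_const, fun σ τ => by simp, fun Q _ _ => key _, fun _ Q _ _ => key _,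
      fun _ Q _ _ => key _⟩
  smul_mem' := by
    rintro k x ⟨ha1, ha2, ha3, ha4, ha5⟩
    have key : ∀ H : Set (G K), CoboundaryOn χ x H → CoboundaryOn χ (k • x) H := by
      rintro H ⟨u, hu⟩
      exact ⟨k * u, fun σ hσ => by rw [Pi.smul_apply, hu σ hσ, smul_eq_mul]; ring⟩
    exact ⟨ha1.const_smul k, fun σ τ => by simp only [Pi.smul_apply, ha2, smul_eq_mul]; ring,
      fun Q h1 h2 => key _ (ha3 Q h1 h2), fun h Q h1 h2 => key _ (ha4 h Q h1 h2),
      fun h Q h1 h2 => key _ (ha5 h Q h1 h2)⟩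

/-- The space of the coboundaries `σ ↦ (χ(σ) - 1) y` (they are in `selmer a b s χ`). -/
noncomputable def coboundaries (χ : G K →* ℤ_[2]ˣ) : Submodule ℚ_[2] (G K → ℚ_[2]) :=
  Submodule.span ℚ_[2] {fun σ => value χ σ - 1}

/-- The group of the cocycles modulo the coboundaries. -/
abbrev H1 (a b : ℤ) (s : K) (χ : G K →* ℤ_[2]ˣ) : Type :=
  selmer a b s χ ⧸ (coboundaries χ).comap (selmer a b s χ).subtype

end

/-- `σ` is a Frobenius element at the prime `w` of `K`: `σ x ≡ x ^ N(w)` modulo some maximal ideal above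
`w` of the ring of all algebraic integers. -/
def IsFrobenius {K : Type} [Field K] [NumberField K] (w : HeightOneSpectrum (𝓞 K)) (σ : G K) : Prop :=
  ∃ Q : Ideal (Zbar K), Q.IsMaximal ∧ Q.comap (algebraMap (𝓞 K) (Zbar K)) = w.asIdeal ∧
    ∀ x : Zbar K, σ • x - x ^ Ideal.absNorm w.asIdeal ∈ Q

/-- `χ` is the 2-adic character of the Hecke character `ψ^a ψ'^b`, `a + b` odd, twisted by `ε D`; `t` is the
image of `s` at `v`. For the primes `w` not dividing `2 q D`, odd `n` with `w^n = (β)`, `β = A + B s`: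
`χ(Frob_w)^n = (A / q) (ε D / (A² + q B²)) (A + B t)^a (A - B t)^b`. -/
def OddType {K : Type} [Field K] [NumberField K] (q D : ℕ) (ε a b : ℤ) (s : K) (t : ℤ_[2])
    (χ : G K →* ℤ_[2]ˣ) : Prop :=
  ∀ (w : HeightOneSpectrum (𝓞 K)) (σ : G K) (n : ℕ) (A B : ℤ) (β : 𝓞 K),
    ((2 * q * D : ℕ) : 𝓞 K) ∉ w.asIdeal → IsFrobenius w σ → Odd n →
    w.asIdeal ^ n = Ideal.span {β} → (β : K) = A + B * s →
    value χ σ ^ n =
      ((jacobiSym A q * jacobiSym (ε * D) (A ^ 2 + q * B ^ 2).natAbs : ℤ) : ℚ_[2]) *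
        ((A : ℚ_[2]) + B * (t : ℚ_[2])) ^ a * ((A : ℚ_[2]) - B * (t : ℚ_[2])) ^ b

/-- `χ` is the 2-adic character of the Hecke character `ψ^a ψ'^b`, `a + b` even, twisted by `ε`. For the
primes `w` not above `2`, odd `n` with `w^n = (β)`, `β = A + B s`:
`χ(Frob_w)^n = (ε / (A² + q B²)) (A + B t)^a (A - B t)^b`. -/
def EvenType {K : Type} [Field K] [NumberField K] (q : ℕ) (ε a b : ℤ) (s : K) (t : ℤ_[2])
    (χ : G K →* ℤ_[2]ˣ) : Prop :=
  ∀ (w : HeightOneSpectrum (𝓞 K)) (σ : G K) (n : ℕ) (A B : ℤ) (β : 𝓞 K),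
    (2 : 𝓞 K) ∉ w.asIdeal → IsFrobenius w σ → Odd n →
    w.asIdeal ^ n = Ideal.span {β} → (β : K) = A + B * s →
    value χ σ ^ n = ((jacobiSym ε (A ^ 2 + q * B ^ 2).natAbs : ℤ) : ℚ_[2]) *
        ((A : ℚ_[2]) + B * (t : ℚ_[2])) ^ a * ((A : ℚ_[2]) - B * (t : ℚ_[2])) ^ b

/-- The sign `(-1)^b` for an integer `b`. -/
def sign (b : ℤ) : ℤ := if Even b then 1 else -1

/-- The class of the `D`: squarefree, all prime factors `1` modulo `4` and `≠ q`, `2 D ≡ q - 5` mod `16`. -/
def Class (q D : ℕ) : Prop := Squarefree D ∧ (∀ p : ℕ, p.Prime → p ∣ D → p % 4 = 1 ∧ p ≠ q) ∧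
  (16 : ℤ) ∣ 2 * D + 5 - q

/-- The prime factors of `D` which split in `ℚ(√-q)`. -/
noncomputable def splitPrimes (q D : ℕ) : Finset ℕ :=
  D.primeFactors.filter fun p => IsSquare (-(q : ZMod p))

/-- `0` if `a` is a square modulo `p` and `1` otherwise. -/
noncomputable def nonsquare (p a : ℕ) : ZMod 2 := if IsSquare (a : ZMod p) then 0 else 1

/-- `0` if `-q` is a fourth power modulo `p` and `1` otherwise. -/
noncomputable def nonfourth (q p : ℕ) : ZMod 2 := if ∃ y : ZMod p, y ^ 4 = -(q : ZMod p) then 0 else 1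

/-- The matrix `R(D)`. -/
noncomputable def R (q D : ℕ) : Matrix (splitPrimes q D) (splitPrimes q D) (ZMod 2) :=
  Matrix.of fun i j => if i = j then ∑ r ∈ D.primeFactors.erase i, nonsquare i r + nonfourth q i
    else nonsquare i j

/-- The corank of `R(D)`: the dimension of its kernel. -/
noncomputable def corank (q D : ℕ) : ℕ :=
  Module.finrank (ZMod 2) (LinearMap.ker (Matrix.mulVecLin (R q D)))

/-- The squarefree integers with all prime factors `1` modulo `8` and `≠ q`. -/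
def Class8 (q D : ℕ) : Prop := Squarefree D ∧ ∀ p : ℕ, p.Prime → p ∣ D → p % 8 = 1 ∧ p ≠ q

/-- The factors `m_j`: in the class, all prime factors `1` mod `8` or inert in `ℚ(√-q)` and `5` mod `8`. -/
def Factor (q m : ℕ) : Prop := Class q m ∧
  ∀ p : ℕ, p.Prime → p ∣ m → p % 8 = 1 ∨ (p % 8 = 5 ∧ ¬ IsSquare (-(q : ZMod p)))

/-- The squarefree part of `m D`, for squarefree `m` and `D`. -/
def times (m D : ℕ) : ℕ := m * D / Nat.gcd m D ^ 2

/-- The proportion of the `D ≤ X` with property `T` among those with all prime factors `1` mod `8`. -/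
noncomputable def proportion (q : ℕ) (T : ℕ → Prop) (X : ℕ) : ℝ :=
  (((Finset.Icc 1 X).filter fun D => Class8 q D ∧ T D).card : ℝ) /
    (((Finset.Icc 1 X).filter fun D => Class8 q D).card : ℝ)

/-- The number `κ = (1 - 1/2) (1 - 1/8) (1 - 1/32) ⋯`. -/
noncomputable def κ : ℝ := ∏' i : ℕ, (1 - (1 / 2 : ℝ) ^ (2 * i + 1))

/-- The law `α(b) = κ / ((2 - 1) (4 - 1) ⋯ (2 ^ b - 1))`. -/
noncomputable def α (b : ℕ) : ℝ := κ / ∏ i ∈ Finset.range b, ((2 : ℝ) ^ (i + 1) - 1)

/-- **Odd degrees.** For all fields `K = ℚ(√-q)`, all `D` of the class, all `a`, `b` with `a + b` odd, `b ≤ 0` and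
`ε = (-1)^b`, or `a ≤ 0` and `ε = (-1)^a`, and all continuous characters of this type: the dimension of the
group `H1` is at most `2 corank R(D)`. -/
def OddDegrees (q : ℕ) : Prop :=
  ∀ (K : Type) [Field K] [NumberField K] (s : K) (t : ℤ_[2]), Module.finrank ℚ K = 2 →
    s ^ 2 = -(q : K) → t ^ 2 = -(q : ℤ_[2]) → (4 : ℤ_[2]) ∣ t - 3 → ∀ D : ℕ, Class q D →
    ∀ a b ε : ℤ, Odd (a + b) → ((b ≤ 0 ∧ ε = sign b) ∨ (a ≤ 0 ∧ ε = sign a)) →
    ∀ χ : G K →* ℤ_[2]ˣ, Continuous χ → OddType q D ε a b s t χ →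
      Module.rank ℚ_[2] (H1 a b s χ) ≤ ((2 * corank q D : ℕ) : Cardinal) ∧
      (corank q D = 0 → ∀ x : H1 a b s χ, x = 0)

/-- **Even degrees.** For all fields `K = ℚ(√-q)`, all `a`, `b` with `a + b` even and `a ≤ 0` or `b ≤ 0`, both signs
`ε` and all continuous characters of this type: the group `H1` is zero. -/
def EvenDegrees (q : ℕ) : Prop :=
  ∀ (K : Type) [Field K] [NumberField K] (s : K) (t : ℤ_[2]), Module.finrank ℚ K = 2 →
    s ^ 2 = -(q : K) → t ^ 2 = -(q : ℤ_[2]) → (4 : ℤ_[2]) ∣ t - 3 →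
    ∀ a b ε : ℤ, Even (a + b) → (a ≤ 0 ∨ b ≤ 0) → (ε = 1 ∨ ε = -1) →
    ∀ χ : G K →* ℤ_[2]ˣ, Continuous χ → EvenType q ε a b s t χ → ∀ x : H1 a b s χ, x = 0

/-- **The joint law** of the coranks of the twists `m_1 D, …, m_M D`. -/
def JointLaw (q : ℕ) : Prop :=
  ∀ (M : ℕ) (m : Fin M → ℕ), Function.Injective m → (∀ j, Factor q (m j)) →
    (∀ D, Class8 q D → ∀ j, Class q (times (m j) D)) ∧
    ∀ b : Fin M → ℕ, Tendsto (proportion q fun D => ∀ j, corank q (times (m j) D) = b j) atTop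
      (𝓝 (∏ j, α (b j)))

section proof

open Pool.Agent.Q274.BKC

lemma sel_of {K : Type} [Field K] {a b : ℤ} {s : K} {χ : G K →* ℤ_[2]ˣ} {c : G K → ℚ_[2]}
    (h : IsSelmer a b s χ c) (hb : b ≤ 0) : IsSel s χ c :=
  ⟨h.1, h.2.1, h.2.2.1, h.2.2.2.2 hb⟩

lemma sel_of' {K : Type} [Field K] {a b : ℤ} {s : K} {χ : G K →* ℤ_[2]ˣ} {c : G K → ℚ_[2]}
    (h : IsSelmer a b s χ c) (ha : a ≤ 0) : IsSel (-s) χ c :=
  ⟨h.1, h.2.1, h.2.2.1, h.2.2.2.1 ha⟩

lemma rank_le {K : Type} [Field K] {a b : ℤ} {s s' : K} {χ : G K →* ℤ_[2]ˣ}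
    (h : ∀ c, IsSelmer a b s χ c → IsSel s' χ c) :
    Module.rank ℚ_[2] (H1 a b s χ) ≤ Module.rank ℚ_[2] (Pool.Agent.Q274.BKC.H1f s' χ) := by
  have hle : selmer a b s χ ≤ Sel s' χ := fun c hc => h c hc
  let F : H1 a b s χ →ₗ[ℚ_[2]] Pool.Agent.Q274.BKC.H1f s' χ :=
    Submodule.mapQ _ _ (Submodule.inclusion hle) (by
      intro x hx
      exact hx)
  refine LinearMap.rank_le_of_injective F ?_
  rw [injective_iff_map_eq_zero]
  intro x hx
  obtain ⟨w, rfl⟩ := Submodule.Quotient.mk_surjective _ x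
  rw [Submodule.Quotient.mk_eq_zero]
  have h1 : (Submodule.Quotient.mk (Submodule.inclusion hle w) :
      Pool.Agent.Q274.BKC.H1f s' χ) = 0 := hx
  rw [Submodule.Quotient.mk_eq_zero] at h1
  exact h1

lemma cl_iff (q D : ℕ) : Class q D ↔ Cl q D :=
  ⟨fun h => ⟨h.1, h.2.1, h.2.2⟩, fun h => ⟨h.sqf, h.one, h.cong⟩⟩

lemma fac_iff {q m : ℕ} (h : Factor q m) : Clm q m ∧ (16 : ℤ) ∣ 2 * m + 5 - q :=
  ⟨⟨h.1.1, fun p hp hm => ⟨h.2 p hp hm, (h.1.2.1 p hp hm).2⟩⟩, h.1.2.2⟩

lemma zero_of_rank {K : Type} [Field K] {a b : ℤ} {s : K} {χ : G K →* ℤ_[2]ˣ} {n : ℕ}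
    (h : Module.rank ℚ_[2] (H1 a b s χ) ≤ ((2 * n : ℕ) : Cardinal)) (hn : n = 0) (x : H1 a b s χ) :
    x = 0 := by
  have h1 : Module.rank ℚ_[2] (H1 a b s χ) = 0 := by
    rw [hn] at h
    simpa using h
  have h3 := rank_zero_iff.1 h1
  exact Subsingleton.elim _ _

lemma zero_of_coboundary {K : Type} [Field K] {a b : ℤ} {s : K} {χ : G K →* ℤ_[2]ˣ}
    (h : ∀ c, IsSelmer a b s χ c → ∃ y : ℚ_[2], ∀ σ, c σ = (value χ σ - 1) * y) (x : H1 a b s χ) :
    x = 0 := by
  obtain ⟨w, rfl⟩ := Submodule.Quotient.mk_surjective _ x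
  rw [Submodule.Quotient.mk_eq_zero, Submodule.mem_comap]
  obtain ⟨y, hy⟩ := h w.1 w.2
  refine Submodule.mem_span_singleton.2 ⟨y, ?_⟩
  funext σ
  rw [Pi.smul_apply, smul_eq_mul]
  change y * (value χ σ - 1) = w.1 σ
  rw [hy σ, mul_comm]

end proof

theorem result (q : ℕ) (hq : q.Prime) (hq8 : q % 8 = 7) :
    OddDegrees q ∧ EvenDegrees 7 ∧ JointLaw q ∧ 0.4194 < κ ∧ κ < 0.4195 := by
  refine ⟨?_, ?_, ?_, Pool.Agent.Q274.BKC.kappa_bounds.1, Pool.Agent.Q274.BKC.kappa_bounds.2⟩
  · intro K _ _ s t hK hs ht ht4 D hD a b ε hab hor χ hc hχ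
    have h : Module.rank ℚ_[2] (H1 a b s χ) ≤ ((2 * corank q D : ℕ) : Cardinal) := by
      rcases hor with ⟨hb, hε⟩ | ⟨ha, hε⟩
      · exact (rank_le fun c h => sel_of h hb).trans
          (Pool.Agent.Q274.BD.odd1 hq hq8 ((cl_iff q D).1 hD) hs hK ht ht4 hc hab hε hχ)
      · exact (rank_le fun c h => sel_of' h ha).trans
          (Pool.Agent.Q274.BD.odd2 hq hq8 ((cl_iff q D).1 hD) hs hK ht ht4 hc hab hε hχ)
    exact ⟨h, fun h0 x => zero_of_rank h h0 x⟩
  · intro K _ _ s t hK hs ht ht4 a b ε hab hor hε χ hc hχ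
    have hu := Pool.Agent.Q274.BD.t_WTE K 7 ε a b s t χ (by norm_num) (by norm_num) hs hK ht ht4 hc
      hχ
    apply zero_of_coboundary
    intro c h
    rcases hor with ha | hb
    · exact Pool.Agent.Q274.BD.ev K (-s) χ (by rw [neg_sq, hs]) hK hc hu c (sel_of' h ha)
    · exact Pool.Agent.Q274.BD.ev K s χ hs hK hc hu c (sel_of h hb)
  · intro M m hm hf
    refine ⟨fun D hD j => ?_, fun b => ?_⟩
    · obtain ⟨h1, h2⟩ := fac_iff (hf j)
      exact (cl_iff _ _).2 (Pool.Agent.Q274.BKC.tw_Cl h1 h2 hD)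
    · have h := Pool.Agent.Q274.BKC.t_LAW q hq hq8 M m b hm fun j => (fac_iff (hf j)).1
      rw [Pool.Agent.Q274.BKC.cR_eq] at h
      refine h.congr fun X => ?_
      unfold proportion
      congr! 4

end Pool.Agent.Results.MP_76188c_nt.PowersOfTwists
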